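import Pool.Agent.helper58.CRO.SpecH

/-!
# Row HK0: the inequality of Kazdan
-/

open scoped Manifold ContDiff Topology ENNReal
open MeasureTheory Set

noncomputable section

namespace Pool.Agent.CRO

theorem HK0_ptw (n : ℕ) (hn : 2 ≤ n) (S A J X σ : ℝ) (hS : 0 < S) (hA : 0 < A)
    (h : X - 2 * (σ / S) * J ≤ Real.log (A / S)) :
    S ^ (n - 1) + ((n - 1 : ℕ) : ℝ) * (S ^ (n - 1) * X) ≤
      A ^ (n - 1) + ((n - 1 : ℕ) : ℝ) * (2 * S ^ (n - 2) * σ * J) := by
  obtain ⟨m, rfl⟩ : ∃ m, n = m + 2 := ⟨n - 2, by omega⟩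
  have e1 : m + 2 - 1 = m + 1 := by omega
  have e2 : m + 2 - 2 = m := by omega
  rw [e1, e2]
  have h1 : A ^ (m + 1) = S ^ (m + 1) * (A / S) ^ (m + 1) := by
    rw [div_pow]
    field_simp
  have h2 : (A / S) ^ (m + 1) = Real.exp (((m + 1 : ℕ) : ℝ) * Real.log (A / S)) := by
    rw [Real.exp_nat_mul, Real.exp_log (by positivity)]
  have h3 := Real.add_one_le_exp (((m + 1 : ℕ) : ℝ) * Real.log (A / S))
  have h4 : ((m + 1 : ℕ) : ℝ) * (X - 2 * (σ / S) * J) ≤ ((m + 1 : ℕ) : ℝ) * Real.log (A / S) :=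
    mul_le_mul_of_nonneg_left h (Nat.cast_nonneg _)
  have h5 : S ^ (m + 1) * (((m + 1 : ℕ) : ℝ) * (X - 2 * (σ / S) * J) + 1) ≤ A ^ (m + 1) := by
    rw [h1, h2]
    exact mul_le_mul_of_nonneg_left (by linarith) (by positivity)
  have h6 : S ^ (m + 1) * (σ / S) = S ^ m * σ := by
    rw [pow_succ]
    field_simp
  have h7 : S ^ (m + 1) * (((m + 1 : ℕ) : ℝ) * (X - 2 * (σ / S) * J) + 1) =
      S ^ (m + 1) + ((m + 1 : ℕ) : ℝ) * (S ^ (m + 1) * X) -
        ((m + 1 : ℕ) : ℝ) * (2 * (S ^ (m + 1) * (σ / S)) * J) := by ring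
  rw [h7, h6] at h5
  linarith

theorem HK0_meas (b : ℝ) (g : ℝ × ℝ → ℝ≥0∞) (hg : Measurable g) :
    Measurable (fun s => ∫⁻ t in Ioo s b, g (s, t)) := by
  have h1 : (fun s => ∫⁻ t in Ioo s b, g (s, t)) =
      fun s => ∫⁻ t, ({p : ℝ × ℝ | p.1 < p.2 ∧ p.2 < b}.indicator g) (s, t) := by
    funext s
    rw [← lintegral_indicator measurableSet_Ioo]
    rfl
  rw [h1]
  have h2 : MeasurableSet {p : ℝ × ℝ | p.1 < p.2 ∧ p.2 < b} :=
    (measurableSet_lt measurable_fst measurable_snd).inter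
      (measurableSet_lt measurable_snd measurable_const)
  exact (hg.indicator h2).lintegral_prod_right'

theorem HK0_split (T G : ℝ → ℝ → ℝ≥0∞) (c : ℝ≥0∞) (hc : c ≠ ⊤)
    (hT : Measurable (fun p : ℝ × ℝ => T p.1 p.2)) (a b : ℝ) :
    ∫⁻ s in Ioo a b, ∫⁻ t in Ioo s b, (T s t + c * G s t) =
      (∫⁻ s in Ioo a b, ∫⁻ t in Ioo s b, T s t) +
        c * ∫⁻ s in Ioo a b, ∫⁻ t in Ioo s b, G s t := by
  have h1 : ∀ s, ∫⁻ t in Ioo s b, (T s t + c * G s t) =
      (∫⁻ t in Ioo s b, T s t) + c * ∫⁻ t in Ioo s b, G s t := by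
    intro s
    have hs : Measurable (fun t => T s t) := hT.comp measurable_prodMk_left
    rw [lintegral_add_left hs, lintegral_const_mul' _ _ hc]
  have h2 : ∫⁻ s in Ioo a b, ∫⁻ t in Ioo s b, (T s t + c * G s t) =
      ∫⁻ s in Ioo a b, ((∫⁻ t in Ioo s b, T s t) + c * ∫⁻ t in Ioo s b, G s t) :=
    lintegral_congr h1
  rw [h2, lintegral_add_left (HK0_meas b (fun p => T p.1 p.2) hT), lintegral_const_mul' _ _ hc]

theorem HK0_X0 (n : ℕ) : ∫ x in (0 : ℝ)..Real.pi, Real.sin x ^ (n - 1) = 2 * X0 n := by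
  have hc : Continuous (fun x : ℝ => Real.sin x ^ (n - 1)) := Real.continuous_sin.pow _
  have h1 : ∫ x in (0 : ℝ)..Real.pi, Real.sin x ^ (n - 1) =
      (∫ x in (0 : ℝ)..(Real.pi / 2), Real.sin x ^ (n - 1)) +
        ∫ x in (Real.pi / 2)..Real.pi, Real.sin x ^ (n - 1) :=
    (intervalIntegral.integral_add_adjacent_intervals (hc.intervalIntegrable _ _)
      (hc.intervalIntegrable _ _)).symm
  have h2 : ∫ x in (0 : ℝ)..(Real.pi / 2), Real.sin x ^ (n - 1) =
      ∫ x in (0 : ℝ)..(Real.pi / 2), Real.sin (Real.pi - x) ^ (n - 1) := by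
    apply intervalIntegral.integral_congr
    intro u _
    simp only [Real.sin_pi_sub]
  have h3 : ∫ x in (0 : ℝ)..(Real.pi / 2), Real.sin (Real.pi - x) ^ (n - 1) =
      ∫ x in (Real.pi / 2)..Real.pi, Real.sin x ^ (n - 1) := by
    rw [intervalIntegral.integral_comp_sub_left (fun u => Real.sin u ^ (n - 1)) Real.pi]
    have e1 : Real.pi - Real.pi / 2 = Real.pi / 2 := by ring
    rw [e1, sub_zero]
  rw [h1, ← h3, ← h2, X0]
  ring

theorem HK0_cont (h1 : HKL_stmt) (h2 : HKJ_stmt) (n : ℕ) (hn : 2 ≤ n) (v : ℝ → ℝ)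
    (hv : Continuous v) (hpos : ∀ r, 0 < v r) :
    ENNReal.ofReal (Real.pi * X0 n) ≤ ∫⁻ s in Ioo 0 Real.pi, ∫⁻ t in Ioo s Real.pi,
      ENNReal.ofReal ((v s * v t * ∫ r in s..t, (v r ^ 2)⁻¹) ^ (n - 1)) := by
  have hpi := Real.pi_pos
  obtain ⟨r0, _, hr0⟩ := isCompact_Icc.exists_isMinOn (nonempty_Icc.2 hpi.le) hv.continuousOn
  have hmin : ∀ r ∈ Icc 0 Real.pi, v r0 ≤ v r := fun r hr => hr0 hr
  let g : ℝ → ℝ := fun r => Real.log (v r) - Real.log (Real.sin r) + -Real.log (v r0)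
  let f : ℝ → ℝ := (Ioo 0 Real.pi).indicator g
  have hlv : Continuous (fun r => Real.log (v r)) := hv.log fun r => (hpos r).ne'
  have hgm : Measurable g := by
    have h3 : Measurable (fun r => Real.log (Real.sin r)) :=
      Real.measurable_log.comp Real.measurable_sin
    exact (hlv.measurable.sub h3).add measurable_const
  have hfm : Measurable f := hgm.indicator measurableSet_Ioo
  have hg0 : ∀ r ∈ Ioo 0 Real.pi, 0 ≤ g r := by
    intro r hr
    have h3 : Real.log (v r0) ≤ Real.log (v r) :=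
      Real.log_le_log (hpos r0) (hmin r ⟨hr.1.le, hr.2.le⟩)
    have h4 : Real.log (Real.sin r) ≤ 0 :=
      Real.log_nonpos (Real.sin_nonneg_of_nonneg_of_le_pi hr.1.le hr.2.le) (Real.sin_le_one r)
    change 0 ≤ Real.log (v r) - Real.log (Real.sin r) + -Real.log (v r0)
    linarith
  have hf0 : ∀ r, 0 ≤ f r := fun r => Set.indicator_apply_nonneg (fun hr => hg0 r hr)
  have hfg : ∀ r ∈ Ioo 0 Real.pi, f r = g r := fun r hr => Set.indicator_of_mem hr g
  have hgint : IntegrableOn g (Ioo 0 Real.pi) := by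
    have h3 : IntegrableOn (fun r => Real.log (v r)) (Ioo 0 Real.pi) :=
      (hlv.continuousOn.integrableOn_Icc (a := 0) (b := Real.pi)).mono_set Ioo_subset_Icc_self
    have h4 : IntegrableOn (Real.log ∘ Real.sin) (Ioo 0 Real.pi) :=
      ((intervalIntegrable_log_sin (a := 0) (b := Real.pi)).1).mono_set Ioo_subset_Ioc_self
    have h5 : IntegrableOn (fun _ : ℝ => -Real.log (v r0)) (Ioo 0 Real.pi) :=
      integrableOn_const (by simp)
    exact (h3.sub h4).add h5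
  have hfin : ∫⁻ r in Ioo 0 Real.pi, ENNReal.ofReal (f r) ≠ ⊤ := by
    have h3 : IntegrableOn f (Ioo 0 Real.pi) :=
      hgint.congr_fun (fun r hr => (hfg r hr).symm) measurableSet_Ioo
    exact h3.lintegral_lt_top.ne
  obtain ⟨L1, L2⟩ := h1 n hn f hfm hf0
  have L3 := (h1 n hn (fun _ => 1 / 2) measurable_const (fun _ => by norm_num)).1
  set c : ℝ≥0∞ := ENNReal.ofReal ((n - 1 : ℕ) : ℝ) with hc
  have hcne : c ≠ ⊤ := ENNReal.ofReal_ne_top
  -- the three integrands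
  let Tf : ℝ → ℝ → ℝ≥0∞ := fun s t => ENNReal.ofReal (Real.sin (t - s) ^ (n - 1))
  let G1 : ℝ → ℝ → ℝ≥0∞ := fun s t => ENNReal.ofReal (Real.sin (t - s) ^ (n - 1) * (f s + f t))
  let If : ℝ → ℝ → ℝ≥0∞ := fun s t =>
    ENNReal.ofReal ((v s * v t * ∫ r in s..t, (v r ^ 2)⁻¹) ^ (n - 1))
  let G2 : ℝ → ℝ → ℝ≥0∞ := fun s t =>
    ENNReal.ofReal (2 * Real.sin (t - s) ^ (n - 2) * (Real.sin s * Real.sin t)) *
      ∫⁻ r in Ioo s t, ENNReal.ofReal (f r / Real.sin r ^ 2)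
  have hTm : Measurable (fun p : ℝ × ℝ => Tf p.1 p.2) := by
    have h3 : Continuous (fun p : ℝ × ℝ => Real.sin (p.2 - p.1) ^ (n - 1)) :=
      (Real.continuous_sin.comp (continuous_snd.sub continuous_fst)).pow _
    exact ENNReal.measurable_ofReal.comp h3.measurable
  have hvi : Continuous (fun r => (v r ^ 2)⁻¹) :=
    (hv.pow 2).inv₀ (fun r => pow_ne_zero 2 (hpos r).ne')
  have hIm : Measurable (fun p : ℝ × ℝ => If p.1 p.2) := by
    have h3 : Continuous (fun x => ∫ r in (0 : ℝ)..x, (v r ^ 2)⁻¹) :=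
      intervalIntegral.continuous_primitive (fun a b => hvi.intervalIntegrable a b) 0
    have h4 : ∀ s t : ℝ, ∫ r in s..t, (v r ^ 2)⁻¹ =
        (∫ r in (0 : ℝ)..t, (v r ^ 2)⁻¹) - ∫ r in (0 : ℝ)..s, (v r ^ 2)⁻¹ := fun s t =>
      (intervalIntegral.integral_interval_sub_left (hvi.intervalIntegrable _ _)
        (hvi.intervalIntegrable _ _)).symm
    have h5 : Continuous (fun p : ℝ × ℝ =>
        (v p.1 * v p.2 * ∫ r in p.1..p.2, (v r ^ 2)⁻¹) ^ (n - 1)) := by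
      have h6 : (fun p : ℝ × ℝ => (v p.1 * v p.2 * ∫ r in p.1..p.2, (v r ^ 2)⁻¹) ^ (n - 1)) =
          fun p : ℝ × ℝ => (v p.1 * v p.2 * ((∫ r in (0 : ℝ)..p.2, (v r ^ 2)⁻¹) -
            ∫ r in (0 : ℝ)..p.1, (v r ^ 2)⁻¹)) ^ (n - 1) := by
        funext p
        rw [h4 p.1 p.2]
      rw [h6]
      exact (((hv.comp continuous_fst).mul (hv.comp continuous_snd)).mul
        ((h3.comp continuous_snd).sub (h3.comp continuous_fst))).pow _
    exact ENNReal.measurable_ofReal.comp h5.measurable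
  have key : ∀ s ∈ Ioo 0 Real.pi, ∀ t ∈ Ioo s Real.pi,
      Tf s t + c * G1 s t ≤ If s t + c * G2 s t := by
    intro s hs t ht
    have hs0 : 0 < s := hs.1
    have hst : s < t := ht.1
    have htp : t < Real.pi := ht.2
    have hSpos : 0 < Real.sin (t - s) := Real.sin_pos_of_pos_of_lt_pi (by linarith) (by linarith)
    have hsins : 0 < Real.sin s := Real.sin_pos_of_pos_of_lt_pi hs0 (by linarith)
    have hsint : 0 < Real.sin t := Real.sin_pos_of_pos_of_lt_pi (by linarith) htp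
    have hsub : ∀ r ∈ Icc s t, r ∈ Ioo 0 Real.pi := fun r hr => ⟨by linarith [hr.1], by linarith [hr.2]⟩
    have hI : 0 < ∫ r in s..t, (v r ^ 2)⁻¹ :=
      intervalIntegral.intervalIntegral_pos_of_pos (hvi.intervalIntegrable _ _)
        (fun r => inv_pos.2 (pow_pos (hpos r) 2)) hst
    have hA : 0 < v s * v t * ∫ r in s..t, (v r ^ 2)⁻¹ :=
      mul_pos (mul_pos (hpos s) (hpos t)) hI
    have hJ := h2 s t (-Real.log (v r0)) v hs0 hst htp hv.continuousOn (fun r _ => hpos r)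
    -- the integral of f / sin^2
    have hcont : ContinuousOn (fun r => g r / Real.sin r ^ 2) (Icc s t) := by
      intro r hr
      have hr' := hsub r hr
      have hsr : 0 < Real.sin r := Real.sin_pos_of_pos_of_lt_pi hr'.1 hr'.2
      have c1 : ContinuousAt (fun r => Real.log (Real.sin r)) r :=
        Real.continuous_sin.continuousAt.log hsr.ne'
      have c2 : ContinuousAt g r := (hlv.continuousAt.sub c1).add continuousAt_const
      exact (c2.div (Real.continuous_sin.continuousAt.pow 2) (pow_ne_zero 2 hsr.ne')).continuousWithinAt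
    have hint : IntegrableOn (fun r => g r / Real.sin r ^ 2) (Ioo s t) :=
      (hcont.integrableOn_Icc).mono_set Ioo_subset_Icc_self
    have hJe : ∫⁻ r in Ioo s t, ENNReal.ofReal (f r / Real.sin r ^ 2) =
        ENNReal.ofReal (∫ r in s..t, g r / Real.sin r ^ 2) := by
      rw [intervalIntegral.integral_of_le hst.le, integral_Ioc_eq_integral_Ioo,
        ofReal_integral_eq_lintegral_ofReal hint]
      · apply setLIntegral_congr_fun measurableSet_Ioo
        intro r hr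
        have hr' := hsub r ⟨hr.1.le, hr.2.le⟩
        change ENNReal.ofReal (f r / Real.sin r ^ 2) = ENNReal.ofReal (g r / Real.sin r ^ 2)
        rw [hfg r hr']
      · apply ae_restrict_of_forall_mem measurableSet_Ioo
        intro r hr
        exact div_nonneg (hg0 r (hsub r ⟨hr.1.le, hr.2.le⟩)) (by positivity)
    have hJ' : (g s + g t) - 2 * ((Real.sin s * Real.sin t) / Real.sin (t - s)) *
        (∫ r in s..t, g r / Real.sin r ^ 2) ≤
        Real.log ((v s * v t * ∫ r in s..t, (v r ^ 2)⁻¹) / Real.sin (t - s)) := hJ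
    have hp := HK0_ptw n hn (Real.sin (t - s)) _ _ _ _ hSpos hA hJ'
    have hJ0 : 0 ≤ ∫ r in s..t, g r / Real.sin r ^ 2 := by
      apply intervalIntegral.integral_nonneg hst.le
      intro r hr
      exact div_nonneg (hg0 r (hsub r hr)) (by positivity)
    have hfs : f s = g s := hfg s hs
    have hft : f t = g t := hfg t ⟨by linarith, htp⟩
    have hgs0 : 0 ≤ g s := hg0 s hs
    have hgt0 : 0 ≤ g t := hg0 t ⟨by linarith, htp⟩
    have hn0 : (0 : ℝ) ≤ ((n - 1 : ℕ) : ℝ) := Nat.cast_nonneg _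
    change ENNReal.ofReal (Real.sin (t - s) ^ (n - 1)) +
      c * ENNReal.ofReal (Real.sin (t - s) ^ (n - 1) * (f s + f t)) ≤
      ENNReal.ofReal ((v s * v t * ∫ r in s..t, (v r ^ 2)⁻¹) ^ (n - 1)) +
      c * (ENNReal.ofReal (2 * Real.sin (t - s) ^ (n - 2) * (Real.sin s * Real.sin t)) *
        ∫⁻ r in Ioo s t, ENNReal.ofReal (f r / Real.sin r ^ 2))
    have p1 : 0 ≤ 2 * Real.sin (t - s) ^ (n - 2) * (Real.sin s * Real.sin t) := by positivity
    have p2 : 0 ≤ Real.sin (t - s) ^ (n - 1) := by positivity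
    have p3 : 0 ≤ ((n - 1 : ℕ) : ℝ) * (Real.sin (t - s) ^ (n - 1) * (g s + g t)) := by positivity
    have p4 : 0 ≤ (v s * v t * ∫ r in s..t, (v r ^ 2)⁻¹) ^ (n - 1) := pow_nonneg hA.le _
    have p5 : 0 ≤ ((n - 1 : ℕ) : ℝ) * (2 * Real.sin (t - s) ^ (n - 2) *
        (Real.sin s * Real.sin t) * ∫ r in s..t, g r / Real.sin r ^ 2) :=
      mul_nonneg hn0 (mul_nonneg p1 hJ0)
    have q1 : c * ENNReal.ofReal (Real.sin (t - s) ^ (n - 1) * (g s + g t)) =
        ENNReal.ofReal (((n - 1 : ℕ) : ℝ) * (Real.sin (t - s) ^ (n - 1) * (g s + g t))) := by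
      rw [hc, ENNReal.ofReal_mul hn0]
    have q2 : c * (ENNReal.ofReal (2 * Real.sin (t - s) ^ (n - 2) * (Real.sin s * Real.sin t)) *
        ENNReal.ofReal (∫ r in s..t, g r / Real.sin r ^ 2)) =
        ENNReal.ofReal (((n - 1 : ℕ) : ℝ) * (2 * Real.sin (t - s) ^ (n - 2) *
        (Real.sin s * Real.sin t) * ∫ r in s..t, g r / Real.sin r ^ 2)) := by
      rw [hc, ENNReal.ofReal_mul hn0, ENNReal.ofReal_mul p1]
    rw [hJe, hfs, hft, q1, q2, ← ENNReal.ofReal_add p2 p3, ← ENNReal.ofReal_add p4 p5]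
    exact ENNReal.ofReal_le_ofReal hp
  have hsum : ∫⁻ s in Ioo 0 Real.pi, ∫⁻ t in Ioo s Real.pi, (Tf s t + c * G1 s t) ≤
      ∫⁻ s in Ioo 0 Real.pi, ∫⁻ t in Ioo s Real.pi, (If s t + c * G2 s t) := by
    apply setLIntegral_mono' measurableSet_Ioo
    intro s hs
    apply setLIntegral_mono' measurableSet_Ioo
    intro t ht
    exact key s hs t ht
  rw [HK0_split Tf G1 c hcne hTm, HK0_split If G2 c hcne hIm] at hsum
  have e1 : ∫⁻ s in Ioo 0 Real.pi, ∫⁻ t in Ioo s Real.pi, G1 s t =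
      ENNReal.ofReal (∫ x in (0 : ℝ)..Real.pi, Real.sin x ^ (n - 1)) *
        ∫⁻ r in Ioo 0 Real.pi, ENNReal.ofReal (f r) := L1
  have e2 : ∫⁻ s in Ioo 0 Real.pi, ∫⁻ t in Ioo s Real.pi, G2 s t =
      ENNReal.ofReal (∫ x in (0 : ℝ)..Real.pi, Real.sin x ^ (n - 1)) *
        ∫⁻ r in Ioo 0 Real.pi, ENNReal.ofReal (f r) := L2
  have hfin2 : c * (ENNReal.ofReal (∫ x in (0 : ℝ)..Real.pi, Real.sin x ^ (n - 1)) *
        ∫⁻ r in Ioo 0 Real.pi, ENNReal.ofReal (f r)) ≠ ⊤ :=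
    ENNReal.mul_ne_top hcne (ENNReal.mul_ne_top ENNReal.ofReal_ne_top hfin)
  rw [e1, e2] at hsum
  have hres := (ENNReal.add_le_add_iff_right hfin2).1 hsum
  have hT : ∫⁻ s in Ioo 0 Real.pi, ∫⁻ t in Ioo s Real.pi, Tf s t =
      ENNReal.ofReal (Real.pi * X0 n) := by
    have h3 : ∫⁻ s in Ioo 0 Real.pi, ∫⁻ t in Ioo s Real.pi, Tf s t =
        ∫⁻ s in Ioo 0 Real.pi, ∫⁻ t in Ioo s Real.pi,
          ENNReal.ofReal (Real.sin (t - s) ^ (n - 1) * ((1 : ℝ) / 2 + 1 / 2)) := by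
      apply lintegral_congr
      intro s
      apply lintegral_congr
      intro t
      change ENNReal.ofReal (Real.sin (t - s) ^ (n - 1)) = _
      have e : (1 : ℝ) / 2 + 1 / 2 = 1 := by norm_num
      rw [e, mul_one]
    rw [h3, L3, HK0_X0, setLIntegral_const, Real.volume_Ioo, sub_zero,
      ← ENNReal.ofReal_mul (by norm_num : (0 : ℝ) ≤ 1 / 2)]
    have hX : 0 ≤ 2 * X0 n := by
      rw [← HK0_X0]
      apply intervalIntegral.integral_nonneg hpi.le
      intro x hx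
      exact pow_nonneg (Real.sin_nonneg_of_nonneg_of_le_pi hx.1 hx.2) _
    rw [← ENNReal.ofReal_mul hX]
    congr 1
    ring
  rw [← hT]
  exact hres

/-- Row HK0. -/
theorem HK0 (h1 : HKL_stmt) (h2 : HKJ_stmt) : HK0_stmt := by
  intro n hn v hv hpos
  have hpi := Real.pi_pos
  let w : ℝ → ℝ := IccExtend hpi.le ((Icc 0 Real.pi).domRestrict v)
  have hw : Continuous w := (hv.domRestrict).Icc_extend'
  have hwv : ∀ r ∈ Icc 0 Real.pi, w r = v r := fun r hr => IccExtend_of_mem _ _ hr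
  have hwpos : ∀ r, 0 < w r := by
    intro r
    exact hpos _ (projIcc 0 Real.pi hpi.le r).2
  have h3 := HK0_cont h1 h2 n hn w hw hwpos
  have h4 : ∫⁻ s in Ioo 0 Real.pi, ∫⁻ t in Ioo s Real.pi,
      ENNReal.ofReal ((w s * w t * ∫ r in s..t, (w r ^ 2)⁻¹) ^ (n - 1)) =
      ∫⁻ s in Ioo 0 Real.pi, ∫⁻ t in Ioo s Real.pi,
        ENNReal.ofReal ((v s * v t * ∫ r in s..t, (v r ^ 2)⁻¹) ^ (n - 1)) := by
    apply setLIntegral_congr_fun measurableSet_Ioo
    intro s hs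
    apply setLIntegral_congr_fun measurableSet_Ioo
    intro t ht
    have e1 : w s = v s := hwv s ⟨hs.1.le, hs.2.le⟩
    have e2 : w t = v t := hwv t ⟨by linarith [hs.1, ht.1], ht.2.le⟩
    have e3 : ∫ r in s..t, (w r ^ 2)⁻¹ = ∫ r in s..t, (v r ^ 2)⁻¹ := by
      apply intervalIntegral.integral_congr
      intro r hr
      rw [uIcc_of_le ht.1.le] at hr
      have e4 : w r = v r := hwv r ⟨by linarith [hs.1, hr.1], by linarith [hr.2, ht.2]⟩
      change (w r ^ 2)⁻¹ = (v r ^ 2)⁻¹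
      rw [e4]
    change ENNReal.ofReal ((w s * w t * ∫ r in s..t, (w r ^ 2)⁻¹) ^ (n - 1)) =
      ENNReal.ofReal ((v s * v t * ∫ r in s..t, (v r ^ 2)⁻¹) ^ (n - 1))
    rw [e1, e2, e3]
  rw [h4] at h3
  exact h3

end Pool.Agent.CRO
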