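import Pool.Agent.helper58.CRO.SpecH

/-!
# Row HK1: change of parameter in the inequality of Kazdan
-/

open scoped Manifold ContDiff Topology ENNReal
open MeasureTheory Set

noncomputable section

namespace Pool.Agent.CRO

/-- the version with a positive lower bound of the weight -/
theorem HK1_aux (h1 : HK0_stmt) (n : ℕ) (hn : 2 ≤ n) (a m : ℝ) (θ ψ : ℝ → ℝ) (ha : 0 < a)
    (hθc : Continuous θ) (hm : 0 < m) (hθm : ∀ u, m ≤ θ u) (hψc : ContinuousOn ψ (Icc (-a) a))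
    (hψ : ∀ u ∈ Icc (-a) a, 0 < ψ u) :
    ENNReal.ofReal (cK n * (∫ u in (-a)..a, θ u) ^ (n + 1)) ≤
      ∫⁻ s in Ioo (-a) a, ∫⁻ t in Ioo s a,
        ENNReal.ofReal ((ψ s * ψ t * ∫ r in s..t, (ψ r ^ 2)⁻¹) ^ (n - 1) *
          Real.sqrt (θ s * θ t) ^ (n + 1)) := by
  have hpi := Real.pi_pos
  have hθ : ∀ u, 0 < θ u := fun u => lt_of_lt_of_le hm (hθm u)
  set T : ℝ := ∫ u in (-a)..a, θ u with hT
  have hTpos : 0 < T :=
    intervalIntegral.intervalIntegral_pos_of_pos (hθc.intervalIntegrable _ _) hθ (by linarith)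
  set κ : ℝ := Real.pi / T with hκ
  have hκpos : 0 < κ := div_pos hpi hTpos
  let τ : ℝ → ℝ := fun u => κ * ∫ x in (-a)..u, θ x
  have hτd : ∀ u, HasDerivAt τ (κ * θ u) u := by
    intro u
    exact (intervalIntegral.integral_hasDerivAt_right (hθc.intervalIntegrable _ _)
      (hθc.stronglyMeasurableAtFilter _ _) hθc.continuousAt).const_mul κ
  have hτc : Continuous τ := continuous_iff_continuousAt.2 fun u => (hτd u).continuousAt
  have hτmono : StrictMono τ := by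
    apply strictMono_of_deriv_pos
    intro u
    rw [(hτd u).deriv]
    exact mul_pos hκpos (hθ u)
  have hτa : τ (-a) = 0 := by
    change κ * ∫ x in (-a)..(-a), θ x = 0
    rw [intervalIntegral.integral_same, mul_zero]
  have hτb : τ a = Real.pi := by
    change κ * ∫ x in (-a)..a, θ x = Real.pi
    rw [← hT, hκ]
    field_simp
  -- growth
  have hgr : ∀ u w : ℝ, u ≤ w → κ * m * (w - u) ≤ τ w - τ u := by
    intro u w huw
    have e1 : τ w - τ u = κ * ∫ x in u..w, θ x := by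
      change κ * (∫ x in (-a)..w, θ x) - κ * (∫ x in (-a)..u, θ x) = κ * ∫ x in u..w, θ x
      rw [← intervalIntegral.integral_interval_sub_left (hθc.intervalIntegrable (-a) w)
        (hθc.intervalIntegrable (-a) u)]
      ring
    have e2 : m * (w - u) ≤ ∫ x in u..w, θ x := by
      have e3 : ∫ x in u..w, m = (w - u) * m := by
        rw [intervalIntegral.integral_const, smul_eq_mul]
      rw [mul_comm, ← e3]
      exact intervalIntegral.integral_mono_on huw (by simp) (hθc.intervalIntegrable _ _)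
        (fun x _ => hθm x)
    rw [e1, mul_assoc]
    exact mul_le_mul_of_nonneg_left e2 hκpos.le
  have hτsurj : Function.Surjective τ := by
    apply hτc.surjective
    · have h3 : Filter.Tendsto (fun w : ℝ => κ * m * (w + a)) Filter.atTop Filter.atTop :=
        (Filter.tendsto_atTop_add_const_right _ a Filter.tendsto_id).const_mul_atTop
          (mul_pos hκpos hm)
      refine Filter.tendsto_atTop_mono' _ ?_ h3
      filter_upwards [Filter.eventually_ge_atTop (-a)] with w hw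
      have := hgr (-a) w hw
      rw [hτa] at this
      linarith
    · have h3 : Filter.Tendsto (fun w : ℝ => κ * m * (w + a)) Filter.atBot Filter.atBot :=
        (Filter.tendsto_atBot_add_const_right _ a Filter.tendsto_id).const_mul_atBot
          (mul_pos hκpos hm)
      refine Filter.tendsto_atBot_mono' _ ?_ h3
      filter_upwards [Filter.eventually_le_atBot (-a)] with w hw
      have := hgr w (-a) hw
      rw [hτa] at this
      linarith
  let e : ℝ ≃o ℝ := hτmono.orderIsoOfSurjective τ hτsurj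
  have he : ∀ u, e u = τ u := fun u => rfl
  let U : ℝ → ℝ := fun x => e.symm x
  have hUc : Continuous U := e.symm.continuous
  have hUτ : ∀ u, U (τ u) = u := fun u => e.symm_apply_apply u
  have hUmem : ∀ x ∈ Icc 0 Real.pi, U x ∈ Icc (-a) a := by
    intro x hx
    obtain ⟨u, rfl⟩ := hτsurj x
    rw [hUτ]
    rw [← hτa, ← hτb] at hx
    exact ⟨hτmono.le_iff_le.1 hx.1, hτmono.le_iff_le.1 hx.2⟩
  let v : ℝ → ℝ := fun x => ψ (U x) * Real.sqrt (κ * θ (U x))
  have hvc : ContinuousOn v (Icc 0 Real.pi) := by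
    apply ContinuousOn.mul
    · exact hψc.comp hUc.continuousOn hUmem
    · exact (Real.continuous_sqrt.comp (continuous_const.mul (hθc.comp hUc))).continuousOn
  have hvpos : ∀ r ∈ Icc 0 Real.pi, 0 < v r := by
    intro r hr
    exact mul_pos (hψ _ (hUmem r hr)) (Real.sqrt_pos.2 (mul_pos hκpos (hθ _)))
  have h0 := h1 n hn v hvc hvpos
  -- image of the intervals
  have himg : ∀ s t : ℝ, τ '' Ioo s t = Ioo (τ s) (τ t) := by
    intro s t
    have h3 := e.image_Ioo s t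
    exact h3
  have hcv : ∀ (s t : ℝ) (g : ℝ → ℝ≥0∞), ∫⁻ x in Ioo (τ s) (τ t), g x =
      ∫⁻ u in Ioo s t, ENNReal.ofReal (κ * θ u) * g (τ u) := by
    intro s t g
    rw [← himg s t, lintegral_image_eq_lintegral_abs_deriv_mul measurableSet_Ioo
      (fun x _ => (hτd x).hasDerivWithinAt) hτmono.injective.injOn g]
    apply lintegral_congr
    intro u
    rw [abs_of_pos (mul_pos hκpos (hθ u))]
  have hbig : ∫⁻ s in Ioo 0 Real.pi, ∫⁻ t in Ioo s Real.pi,
      ENNReal.ofReal ((v s * v t * ∫ r in s..t, (v r ^ 2)⁻¹) ^ (n - 1)) =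
      ENNReal.ofReal (κ ^ (n + 1)) * ∫⁻ s in Ioo (-a) a, ∫⁻ t in Ioo s a,
        ENNReal.ofReal ((ψ s * ψ t * ∫ r in s..t, (ψ r ^ 2)⁻¹) ^ (n - 1) *
          Real.sqrt (θ s * θ t) ^ (n + 1)) := by
    have e1 := hcv (-a) a (fun s => ∫⁻ t in Ioo s Real.pi,
      ENNReal.ofReal ((v s * v t * ∫ r in s..t, (v r ^ 2)⁻¹) ^ (n - 1)))
    rw [hτa, hτb] at e1
    rw [e1, ← lintegral_const_mul' _ _ ENNReal.ofReal_ne_top]
    apply setLIntegral_congr_fun measurableSet_Ioo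
    intro s hs
    have e2 := hcv s a (fun t => ENNReal.ofReal ((v (τ s) * v t *
      ∫ r in (τ s)..t, (v r ^ 2)⁻¹) ^ (n - 1)))
    rw [hτb] at e2
    change ENNReal.ofReal (κ * θ s) * ∫⁻ t in Ioo (τ s) Real.pi,
      ENNReal.ofReal ((v (τ s) * v t * ∫ r in (τ s)..t, (v r ^ 2)⁻¹) ^ (n - 1)) =
      ENNReal.ofReal (κ ^ (n + 1)) * ∫⁻ t in Ioo s a,
        ENNReal.ofReal ((ψ s * ψ t * ∫ r in s..t, (ψ r ^ 2)⁻¹) ^ (n - 1) *
          Real.sqrt (θ s * θ t) ^ (n + 1))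
    rw [e2, ← lintegral_const_mul' _ _ ENNReal.ofReal_ne_top,
      ← lintegral_const_mul' _ _ ENNReal.ofReal_ne_top]
    apply setLIntegral_congr_fun measurableSet_Ioo
    intro t ht
    change ENNReal.ofReal (κ * θ s) * (ENNReal.ofReal (κ * θ t) *
      ENNReal.ofReal ((v (τ s) * v (τ t) * ∫ r in (τ s)..(τ t), (v r ^ 2)⁻¹) ^ (n - 1))) =
      ENNReal.ofReal (κ ^ (n + 1)) *
        ENNReal.ofReal ((ψ s * ψ t * ∫ r in s..t, (ψ r ^ 2)⁻¹) ^ (n - 1) *
          Real.sqrt (θ s * θ t) ^ (n + 1))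
    have hsub : ∀ u ∈ Icc s t, u ∈ Icc (-a) a := fun u hu =>
      ⟨by linarith [hs.1, hu.1], by linarith [hu.2, ht.2]⟩
    have f1 : v (τ s) = ψ s * Real.sqrt (κ * θ s) := by
      change ψ (U (τ s)) * Real.sqrt (κ * θ (U (τ s))) = _
      rw [hUτ]
    have f2 : v (τ t) = ψ t * Real.sqrt (κ * θ t) := by
      change ψ (U (τ t)) * Real.sqrt (κ * θ (U (τ t))) = _
      rw [hUτ]
    have f3 : ∫ r in (τ s)..(τ t), (v r ^ 2)⁻¹ = ∫ r in s..t, (ψ r ^ 2)⁻¹ := by
      have g1 : ContinuousOn (fun r => (v r ^ 2)⁻¹) (τ '' uIcc s t) := by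
        have g2 : τ '' uIcc s t ⊆ Icc 0 Real.pi := by
          rintro _ ⟨u, hu, rfl⟩
          rw [uIcc_of_le ht.1.le] at hu
          have hu' := hsub u hu
          rw [← hτa, ← hτb]
          exact ⟨hτmono.monotone hu'.1, hτmono.monotone hu'.2⟩
        exact ((hvc.mono g2).pow 2).inv₀ (fun x hx => pow_ne_zero 2 (hvpos x (g2 hx)).ne')
      rw [← intervalIntegral.integral_comp_mul_deriv' (f := τ) (f' := fun u => κ * θ u)
        (g := fun r => (v r ^ 2)⁻¹) (fun x _ => hτd x)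
        (continuous_const.mul hθc).continuousOn g1]
      apply intervalIntegral.integral_congr
      intro u hu
      rw [uIcc_of_le ht.1.le] at hu
      have hψu := hψ u (hsub u hu)
      have hk : 0 < κ * θ u := mul_pos hκpos (hθ u)
      change ((ψ (U (τ u)) * Real.sqrt (κ * θ (U (τ u)))) ^ 2)⁻¹ * (κ * θ u) = (ψ u ^ 2)⁻¹
      rw [hUτ, mul_pow, Real.sq_sqrt hk.le]
      have hne := (hθ u).ne'
      field_simp
    have hB0 : 0 ≤ ∫ r in s..t, (ψ r ^ 2)⁻¹ := by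
      apply intervalIntegral.integral_nonneg ht.1.le
      intro u _
      positivity
    have hs' : 0 < ψ s := hψ s ⟨hs.1.le, hs.2.le⟩
    have ht' : 0 < ψ t := hψ t (hsub t ⟨ht.1.le, le_rfl⟩)
    have hks : 0 < κ * θ s := mul_pos hκpos (hθ s)
    have hkt : 0 < κ * θ t := mul_pos hκpos (hθ t)
    rw [f1, f2, f3, ← ENNReal.ofReal_mul hkt.le, ← ENNReal.ofReal_mul hks.le,
      ← ENNReal.ofReal_mul (by positivity)]
    congr 1
    have r1 : Real.sqrt (κ * θ s) * Real.sqrt (κ * θ t) = κ * Real.sqrt (θ s * θ t) := by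
      rw [← Real.sqrt_mul hks.le]
      have r2 : κ * θ s * (κ * θ t) = κ ^ 2 * (θ s * θ t) := by ring
      rw [r2, Real.sqrt_mul (by positivity), Real.sqrt_sq hκpos.le]
    have r3 : θ s * θ t = Real.sqrt (θ s * θ t) ^ 2 :=
      (Real.sq_sqrt (mul_pos (hθ s) (hθ t)).le).symm
    obtain ⟨k, rfl⟩ : ∃ k, n = k + 2 := ⟨n - 2, by omega⟩
    have r4 : k + 2 - 1 = k + 1 := by omega
    rw [r4]
    have r5 : ψ s * Real.sqrt (κ * θ s) * (ψ t * Real.sqrt (κ * θ t)) *
        (∫ r in s..t, (ψ r ^ 2)⁻¹) =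
        (κ * Real.sqrt (θ s * θ t)) * (ψ s * ψ t * ∫ r in s..t, (ψ r ^ 2)⁻¹) := by
      rw [← r1]
      ring
    rw [r5, mul_pow]
    generalize (ψ s * ψ t * ∫ r in s..t, (ψ r ^ 2)⁻¹) ^ (k + 1) = B
    calc κ * θ s * (κ * θ t * ((κ * Real.sqrt (θ s * θ t)) ^ (k + 1) * B))
        = κ ^ 2 * (θ s * θ t) * ((κ * Real.sqrt (θ s * θ t)) ^ (k + 1) * B) := by ring
      _ = κ ^ 2 * (Real.sqrt (θ s * θ t) ^ 2) * ((κ * Real.sqrt (θ s * θ t)) ^ (k + 1) * B) := by
          rw [← r3]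
      _ = κ ^ (k + 2 + 1) * (B * Real.sqrt (θ s * θ t) ^ (k + 2 + 1)) := by ring
  rw [hbig] at h0
  have hfinal : ENNReal.ofReal (cK n * T ^ (n + 1)) =
      ENNReal.ofReal ((κ ^ (n + 1))⁻¹) * ENNReal.ofReal (Real.pi * X0 n) := by
    rw [← ENNReal.ofReal_mul (by positivity)]
    congr 1
    rw [hκ, cK, div_pow, pow_succ Real.pi n]
    field_simp
  rw [hfinal]
  calc ENNReal.ofReal ((κ ^ (n + 1))⁻¹) * ENNReal.ofReal (Real.pi * X0 n)
      ≤ ENNReal.ofReal ((κ ^ (n + 1))⁻¹) * (ENNReal.ofReal (κ ^ (n + 1)) *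
        ∫⁻ s in Ioo (-a) a, ∫⁻ t in Ioo s a,
        ENNReal.ofReal ((ψ s * ψ t * ∫ r in s..t, (ψ r ^ 2)⁻¹) ^ (n - 1) *
          Real.sqrt (θ s * θ t) ^ (n + 1))) := by gcongr
    _ = _ := by
        have hkp : 0 < κ ^ (n + 1) := by positivity
        rw [← mul_assoc, ← ENNReal.ofReal_mul (by positivity), inv_mul_cancel₀ hkp.ne',
          ENNReal.ofReal_one, one_mul]

/-- Row HK1. -/
theorem HK1 (h1 : HK0_stmt) : HK1_stmt := by
  intro n hn a θ ψ ha hθc hθ hψc hψ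
  have haa : -a ≤ a := by linarith
  obtain ⟨u0, hu0, hmin⟩ := isCompact_Icc.exists_isMinOn (nonempty_Icc.2 haa) hθc.continuousOn
  let w : ℝ → ℝ := IccExtend haa ((Icc (-a) a).domRestrict θ)
  have hwc : Continuous w := (hθc.continuousOn.domRestrict).Icc_extend'
  have hwv : ∀ r ∈ Icc (-a) a, w r = θ r := fun r hr => IccExtend_of_mem _ _ hr
  have hwm : ∀ r, θ u0 ≤ w r := by
    intro r
    exact hmin (projIcc (-a) a haa r).2
  have h3 := HK1_aux h1 n hn a (θ u0) w ψ ha hwc (hθ u0) hwm hψc hψ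
  have h4 : ∫ u in (-a)..a, w u = ∫ u in (-a)..a, θ u := by
    apply intervalIntegral.integral_congr
    intro u hu
    rw [uIcc_of_le haa] at hu
    exact hwv u hu
  have h5 : ∫⁻ s in Ioo (-a) a, ∫⁻ t in Ioo s a,
        ENNReal.ofReal ((ψ s * ψ t * ∫ r in s..t, (ψ r ^ 2)⁻¹) ^ (n - 1) *
          Real.sqrt (w s * w t) ^ (n + 1)) =
      ∫⁻ s in Ioo (-a) a, ∫⁻ t in Ioo s a,
        ENNReal.ofReal ((ψ s * ψ t * ∫ r in s..t, (ψ r ^ 2)⁻¹) ^ (n - 1) *
          Real.sqrt (θ s * θ t) ^ (n + 1)) := by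
    apply setLIntegral_congr_fun measurableSet_Ioo
    intro s hs
    apply setLIntegral_congr_fun measurableSet_Ioo
    intro t ht
    have e1 : w s = θ s := hwv s ⟨hs.1.le, hs.2.le⟩
    have e2 : w t = θ t := hwv t ⟨by linarith [hs.1, ht.1], ht.2.le⟩
    change ENNReal.ofReal ((ψ s * ψ t * ∫ r in s..t, (ψ r ^ 2)⁻¹) ^ (n - 1) *
          Real.sqrt (w s * w t) ^ (n + 1)) = ENNReal.ofReal ((ψ s * ψ t *
          ∫ r in s..t, (ψ r ^ 2)⁻¹) ^ (n - 1) * Real.sqrt (θ s * θ t) ^ (n + 1))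
    rw [e1, e2]
  rw [h4, h5] at h3
  exact h3

end Pool.Agent.CRO
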