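import Pool.Agent.helper58.CRO.SpecH

/-!
# Row HKE: the kernel identity
-/

open scoped Manifold ContDiff Topology ENNReal
open MeasureTheory Set

noncomputable section

namespace Pool.Agent.CRO

/-- the primitive of `sin^(m+1)` -/
def HKE_W (m : ℕ) (x : ℝ) : ℝ := ∫ u in (0 : ℝ)..x, Real.sin u ^ (m + 1)

def HKE_G (m : ℕ) (x : ℝ) : ℝ :=
  1 / 2 * (Real.sin x ^ (m + 2) / (m + 1) - Real.cos x * HKE_W m x)

def HKE_G1 (m : ℕ) (x : ℝ) : ℝ :=
  1 / 2 * (Real.cos x * Real.sin x ^ (m + 1) / (m + 1) + Real.sin x * HKE_W m x)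

def HKE_F (m : ℕ) (x : ℝ) : ℝ := - HKE_W m x / (2 * (m + 1))

def HKE_F1 (m : ℕ) (x : ℝ) : ℝ := - Real.sin x ^ (m + 1) / (2 * (m + 1))

def HKE_P (m : ℕ) (s t : ℝ) : ℝ :=
  - HKE_F1 m (t - s) - HKE_G1 m (t - s) * Real.cos (t + s) - HKE_G m (t - s) * Real.sin (t + s)

def HKE_H (m : ℕ) (s t : ℝ) : ℝ := HKE_F m (t - s) + HKE_G m (t - s) * Real.cos (t + s)

theorem HKE_hW (m : ℕ) (x : ℝ) : HasDerivAt (HKE_W m) (Real.sin x ^ (m + 1)) x := by
  have hc : Continuous (fun u : ℝ => Real.sin u ^ (m + 1)) := Real.continuous_sin.pow _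
  exact intervalIntegral.integral_hasDerivAt_right (hc.intervalIntegrable _ _)
    (hc.stronglyMeasurableAtFilter _ _) hc.continuousAt

theorem HKE_m (m : ℕ) : ((m : ℝ) + 1) ≠ 0 := by positivity

theorem HKE_hs (m : ℕ) (x : ℝ) : HasDerivAt (fun x : ℝ => Real.sin x ^ (m + 1))
    (((m : ℝ) + 1) * Real.sin x ^ m * Real.cos x) x := by
  have h := (Real.hasDerivAt_sin x).pow (m + 1)
  simp only [Nat.add_sub_cancel, Nat.cast_add, Nat.cast_one] at h
  exact h

theorem HKE_hF (m : ℕ) (x : ℝ) : HasDerivAt (HKE_F m) (HKE_F1 m x) x :=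
  (HKE_hW m x).neg.div_const _

theorem HKE_hF1 (m : ℕ) (x : ℝ) :
    HasDerivAt (HKE_F1 m) (-(1 / 2 * Real.sin x ^ m * Real.cos x)) x := by
  have h := (HKE_hs m x).neg.div_const (2 * ((m : ℝ) + 1))
  have e : -(1 / 2 * Real.sin x ^ m * Real.cos x) =
      -(((m : ℝ) + 1) * Real.sin x ^ m * Real.cos x) / (2 * ((m : ℝ) + 1)) := by
    have := HKE_m m
    field_simp
  rw [e]
  exact h

theorem HKE_hG (m : ℕ) (x : ℝ) : HasDerivAt (HKE_G m) (HKE_G1 m x) x := by
  have h1 := ((HKE_hs (m + 1) x).div_const ((m : ℝ) + 1)).sub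
    ((Real.hasDerivAt_cos x).mul (HKE_hW m x))
  have h2 := h1.const_mul (1 / 2 : ℝ)
  have e : HKE_G1 m x = 1 / 2 * ((((m + 1 : ℕ) : ℝ) + 1) * Real.sin x ^ (m + 1) * Real.cos x /
      ((m : ℝ) + 1) - (-Real.sin x * HKE_W m x + Real.cos x * Real.sin x ^ (m + 1))) := by
    have := HKE_m m
    rw [HKE_G1]
    push_cast
    field_simp
    ring
  rw [e]
  exact h2

theorem HKE_hG1 (m : ℕ) (x : ℝ) :
    HasDerivAt (HKE_G1 m) (1 / 2 * Real.sin x ^ m - HKE_G m x) x := by
  have h1 := (((Real.hasDerivAt_cos x).mul (HKE_hs m x)).div_const ((m : ℝ) + 1)).add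
    ((Real.hasDerivAt_sin x).mul (HKE_hW m x))
  have h2 := h1.const_mul (1 / 2 : ℝ)
  have e : 1 / 2 * Real.sin x ^ m - HKE_G m x = 1 / 2 * ((-Real.sin x * Real.sin x ^ (m + 1) +
      Real.cos x * (((m : ℝ) + 1) * Real.sin x ^ m * Real.cos x)) / ((m : ℝ) + 1) +
      (Real.cos x * HKE_W m x + Real.sin x * Real.sin x ^ (m + 1))) := by
    have h3 := HKE_m m
    have h4 := Real.sin_sq_add_cos_sq x
    rw [HKE_G]
    field_simp
    have h5 : Real.sin x ^ (m + 2) = Real.sin x ^ m * Real.sin x ^ 2 := by ring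
    have h6 : Real.sin x ^ (m + 1) = Real.sin x ^ m * Real.sin x := by ring
    rw [h5, h6]
    linear_combination (-(Real.sin x ^ m * ((m : ℝ) + 1))) * h4
  rw [e]
  exact h2

theorem HKE_hP (m : ℕ) (s t : ℝ) : HasDerivAt (fun t => HKE_P m s t)
    (Real.sin (t - s) ^ m * (Real.sin s * Real.sin t)) t := by
  have a1 : HasDerivAt (fun t : ℝ => t - s) 1 t := (hasDerivAt_id t).sub_const s
  have a2 : HasDerivAt (fun t : ℝ => t + s) 1 t := (hasDerivAt_id t).add_const s
  have f1 := (HKE_hF1 m (t - s)).comp t a1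
  have g1 := (HKE_hG1 m (t - s)).comp t a1
  have g0 := (HKE_hG m (t - s)).comp t a1
  have c1 := (Real.hasDerivAt_cos (t + s)).comp t a2
  have s1 := (Real.hasDerivAt_sin (t + s)).comp t a2
  have h := (f1.neg.sub (g1.mul c1)).sub (g0.mul s1)
  have e : Real.sin (t - s) ^ m * (Real.sin s * Real.sin t) =
      -(-(1 / 2 * Real.sin (t - s) ^ m * Real.cos (t - s)) * 1) -
        ((1 / 2 * Real.sin (t - s) ^ m - HKE_G m (t - s)) * 1 * Real.cos (t + s) +
          HKE_G1 m (t - s) * (-Real.sin (t + s) * 1)) -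
        (HKE_G1 m (t - s) * 1 * Real.sin (t + s) + HKE_G m (t - s) * (Real.cos (t + s) * 1)) := by
    have h4 : Real.cos (t - s) - Real.cos (t + s) = 2 * (Real.sin s * Real.sin t) := by
      rw [Real.cos_sub, Real.cos_add]
      ring
    linear_combination (-(1 / 2 * Real.sin (t - s) ^ m)) * h4
  rw [e]
  exact h

theorem HKE_hH (m : ℕ) (s t : ℝ) : HasDerivAt (fun s => HKE_H m s t) (HKE_P m s t) s := by
  have a1 : HasDerivAt (fun s : ℝ => t - s) (-1) s := (hasDerivAt_id s).const_sub t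
  have a2 : HasDerivAt (fun s : ℝ => t + s) 1 s := (hasDerivAt_id s).const_add t
  have f1 := (HKE_hF m (t - s)).comp s a1
  have g0 := (HKE_hG m (t - s)).comp s a1
  have c1 := (Real.hasDerivAt_cos (t + s)).comp s a2
  have h := f1.add (g0.mul c1)
  have e : HKE_P m s t = HKE_F1 m (t - s) * -1 + (HKE_G1 m (t - s) * -1 * Real.cos (t + s) +
      HKE_G m (t - s) * (-Real.sin (t + s) * 1)) := by
    rw [HKE_P]
    ring
  rw [e]
  exact h

theorem HKE_cP (m : ℕ) (t : ℝ) : Continuous (fun s => HKE_P m s t) := by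
  have cW : Continuous (HKE_W m) :=
    continuous_iff_continuousAt.2 fun x => (HKE_hW m x).continuousAt
  have cG : Continuous (HKE_G m) :=
    continuous_iff_continuousAt.2 fun x => (HKE_hG m x).continuousAt
  have cG1 : Continuous (HKE_G1 m) :=
    continuous_iff_continuousAt.2 fun x => (HKE_hG1 m x).continuousAt
  have cF1 : Continuous (HKE_F1 m) :=
    continuous_iff_continuousAt.2 fun x => (HKE_hF1 m x).continuousAt
  have a1 : Continuous (fun s : ℝ => t - s) := continuous_const.sub continuous_id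
  have a2 : Continuous (fun s : ℝ => t + s) := continuous_const.add continuous_id
  exact ((cF1.comp a1).neg.sub ((cG1.comp a1).mul (Real.continuous_cos.comp a2))).sub
    ((cG.comp a1).mul (Real.continuous_sin.comp a2))

theorem HKE_sym (m : ℕ) (r : ℝ) : HKE_W m (Real.pi - r) = HKE_W m Real.pi - HKE_W m r := by
  have hc : Continuous (fun u : ℝ => Real.sin u ^ (m + 1)) := Real.continuous_sin.pow _
  have h1 : HKE_W m Real.pi - HKE_W m r = ∫ u in r..Real.pi, Real.sin u ^ (m + 1) :=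
    intervalIntegral.integral_interval_sub_left (hc.intervalIntegrable _ _)
      (hc.intervalIntegrable _ _)
  have h2 : HKE_W m (Real.pi - r) = ∫ u in (0 : ℝ)..(Real.pi - r), Real.sin (Real.pi - u) ^ (m + 1) := by
    rw [HKE_W]
    apply intervalIntegral.integral_congr
    intro u _
    simp only [Real.sin_pi_sub]
  rw [h1, h2, intervalIntegral.integral_comp_sub_left (fun u => Real.sin u ^ (m + 1)) Real.pi]
  have e1 : Real.pi - (Real.pi - r) = r := by ring
  rw [e1, sub_zero]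

/-- Row HKE. -/
theorem HKE : HKE_stmt := by
  intro n hn r _
  obtain ⟨m, rfl⟩ : ∃ m, n = m + 2 := ⟨n - 2, by omega⟩
  have e1 : m + 2 - 2 = m := by omega
  have e2 : m + 2 - 1 = m + 1 := by omega
  rw [e1, e2]
  have hin : ∀ s : ℝ, ∫ t in r..Real.pi, Real.sin (t - s) ^ m * (Real.sin s * Real.sin t) =
      HKE_P m s Real.pi - HKE_P m s r := by
    intro s
    apply intervalIntegral.integral_eq_sub_of_hasDerivAt (fun t _ => HKE_hP m s t)
    apply Continuous.intervalIntegrable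
    fun_prop
  have h1 : ∫ s in (0 : ℝ)..r, ∫ t in r..Real.pi,
      Real.sin (t - s) ^ m * (Real.sin s * Real.sin t) =
      ∫ s in (0 : ℝ)..r, (HKE_P m s Real.pi - HKE_P m s r) := by
    apply intervalIntegral.integral_congr
    intro s _
    exact hin s
  have h2 : ∫ s in (0 : ℝ)..r, (HKE_P m s Real.pi - HKE_P m s r) =
      (HKE_H m r Real.pi - HKE_H m r r) - (HKE_H m 0 Real.pi - HKE_H m 0 r) :=
    intervalIntegral.integral_eq_sub_of_hasDerivAt
      (f := fun s => HKE_H m s Real.pi - HKE_H m s r)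
      (fun s _ => (HKE_hH m s Real.pi).sub (HKE_hH m s r))
      (((HKE_cP m Real.pi).sub (HKE_cP m r)).intervalIntegrable _ _)
  have hW0 : HKE_W m 0 = 0 := intervalIntegral.integral_same
  have hWpi : HKE_W m Real.pi = ∫ x in (0 : ℝ)..Real.pi, Real.sin x ^ (m + 1) := rfl
  have hsym := HKE_sym m r
  rw [h1, h2, ← hWpi]
  simp only [HKE_H, HKE_F, HKE_G, sub_zero, add_zero, sub_self, hW0, hsym, Real.sin_pi_sub,
    Real.cos_pi_sub, Real.sin_pi, Real.cos_pi, Real.sin_zero, Real.cos_zero]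
  have h3 : Real.cos (Real.pi + r) = - Real.cos r := by
    rw [add_comm, Real.cos_add_pi]
  have h4 : (0 : ℝ) ^ (m + 2) = 0 := by
    rw [zero_pow (by omega)]
  rw [h3, h4]
  have h5 := Real.sin_sq_add_cos_sq r
  have h6 : Real.cos r ^ 2 = 1 - Real.sin r ^ 2 := by linarith
  have h7 := HKE_m m
  field_simp
  ring_nf
  rw [h6]
  ring

end Pool.Agent.CRO
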