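import Pool.Agent.helper58.CRO.SpecK

/-!
# Row KC1: every segment crosses a given segment at most once
-/

open scoped Manifold ContDiff Topology ENNReal
open MeasureTheory Set Bundle Filter

noncomputable section

namespace Pool.Agent.CRO

variable {r0 : ℝ}

/-- integration over the plane -/
theorem KC1_pl (f : ℝ × ℝ → ℝ≥0∞) (hf : Measurable f) :
    ∫⁻ a : En 2, f (a 0, a 1) = ∫⁻ s : ℝ, ∫⁻ t : ℝ, f (s, t) := by
  have h1 : MeasurePreserving (fun a : En 2 => (a 0, a 1)) (volume : Measure (En 2))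
      (volume : Measure (ℝ × ℝ)) :=
    (volume_preserving_finTwoArrow ℝ).comp (PiLp.volume_preserving_ofLp (Fin 2))
  have h2 := h1.lintegral_comp hf
  rw [h2, Measure.volume_eq_prod, lintegral_prod _ hf.aemeasurable]

theorem KC1_crs_cont : Continuous (fun q : En 2 × En 2 => crs q.1 q.2) := by
  have h0 : ∀ i : Fin 2, Continuous (fun a : En 2 => a i) := fun i => by fun_prop
  exact (((h0 0).comp continuous_fst).mul ((h0 1).comp continuous_snd)).sub
    (((h0 1).comp continuous_fst).mul ((h0 0).comp continuous_snd)) |>.abs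

theorem KC1_crs_nn (v w : En 2) : 0 ≤ crs v w := abs_nonneg _

/-- Row KC1. -/
theorem KC1 (h1 : KIN_stmt) (h2 : KDE_stmt) (h3 : IWN_stmt) (h4 : INV_stmt) (h5 : IME_stmt) :
    KC1_stmt := by
  classical
  intro r0 𝒢 L R e r1 H Φ hS k hk z hz
  obtain ⟨hSopen, hSLopen, _, _, _, hTTm, _⟩ := h5 2 r0 𝒢 L R e r1 H Φ hS
  have hTT : Measurable (TT Φ R (fun _ : En 2 => (1 : ℝ))) := hTTm _ measurable_const
  have hcont : Continuous fun q : ℝ × PS 2 => Φ q.1 q.2 := hS.fl.cont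
  have hΦz : Continuous (fun s : ℝ => Φ s z) := hcont.comp (continuous_id.prodMk continuous_const)
  set W : ℝ × En 2 → PS 2 := fun y => ((Φ y.1 z).1, y.2) with hW
  have hWc : Continuous W := (continuous_fst.comp (hΦz.comp continuous_fst)).prodMk continuous_snd
  set S : Set (PS 2 × ℝ) := {q | Stay Φ R q.1 q.2} with hSdef
  have hSm : MeasurableSet S := hSopen.measurableSet
  set Om : Set (ℝ × En 2) := {y | Stay Φ R z y.1 ∧ W y ∈ SL 𝒢 e R} with hOm
  have hOmo : IsOpen Om := by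
    have e1 : IsOpen {y : ℝ × En 2 | Stay Φ R z y.1} :=
      hSopen.preimage (f := fun y : ℝ × En 2 => ((z, y.1) : PS 2 × ℝ))
        (continuous_const.prodMk continuous_fst)
    have e2 : IsOpen {y : ℝ × En 2 | W y ∈ SL 𝒢 e R} := hSLopen.preimage hWc
    exact e1.inter e2
  set cR : ℝ × En 2 → ℝ := fun y =>
    crs (𝒢.G (Φ y.1 z).1 (Φ y.1 z).2) (𝒢.G (Φ y.1 z).1 y.2) with hcR
  have hcRnn : ∀ y, 0 ≤ cR y := fun y => KC1_crs_nn _ _
  have hcRc : ContinuousOn cR Om := by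
    have e0 : ContinuousOn (fun y : ℝ × En 2 => 𝒢.G (Φ y.1 z).1) Om := by
      apply (𝒢.smooth.continuousOn).comp
        ((continuous_fst.comp (hΦz.comp continuous_fst)).continuousOn)
      intro y hy
      have hlt : ‖(Φ y.1 z).1‖ < R := hy.1 y.1 right_mem_uIcc
      rw [mem_ball_zero_iff]
      change ‖(Φ y.1 z).1‖ < r0
      linarith [hS.Rr, hS.fl.r1lt]
    have e1 : ContinuousOn (fun y : ℝ × En 2 => 𝒢.G (Φ y.1 z).1 (Φ y.1 z).2) Om :=
      e0.clm_apply ((continuous_snd.comp (hΦz.comp continuous_fst)).continuousOn)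
    have e2 : ContinuousOn (fun y : ℝ × En 2 => 𝒢.G (Φ y.1 z).1 y.2) Om :=
      e0.clm_apply continuous_snd.continuousOn
    exact KC1_crs_cont.comp_continuousOn (e1.prodMk e2)
  set cT : ℝ × En 2 → ℝ := Om.indicator cR with hcT
  have hcTm : Measurable cT := by
    rw [hcT, ← Set.piecewise_eq_indicator]
    exact ContinuousOn.measurable_piecewise hcRc continuousOn_const hOmo.measurableSet
  have hcTOm : ∀ y, cT y ≠ 0 → y ∈ Om := by
    intro y hy
    by_contra hn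
    exact hy (indicator_of_notMem hn _)
  have hcTR : ∀ y ∈ Om, cT y = cR y := fun y hy => indicator_of_mem hy _
  -- properties of the segments through W y
  have hTTfin : ∀ w ∈ SL 𝒢 e R, TT Φ R (fun _ : En 2 => (1 : ℝ)) w ≠ 0 ∧
      TT Φ R (fun _ : En 2 => (1 : ℝ)) w ≠ ⊤ := by
    intro w hw
    obtain ⟨α, β, hα, hβ, hiff, _⟩ := h3 2 r0 𝒢 L R e r1 H Φ hS w hw
    have e1 : {u | Stay Φ R w u} = Ioo α β := by
      ext u
      exact hiff u
    have e2 : TT Φ R (fun _ : En 2 => (1 : ℝ)) w = ENNReal.ofReal (β - α) := by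
      rw [TT, e1, ENNReal.ofReal_one, setLIntegral_one, Real.volume_Ioo]
    rw [e2]
    exact ⟨by rw [ne_eq, ENNReal.ofReal_eq_zero]; linarith, ENNReal.ofReal_ne_top⟩
  set A : ℝ × En 2 → ℝ≥0∞ := fun y => ENNReal.ofReal (cT y) *
    (ENNReal.ofReal (k (W y)) * (TT Φ R (fun _ : En 2 => (1 : ℝ)) (W y))⁻¹) with hA
  have hAm : Measurable A := (ENNReal.measurable_ofReal.comp hcTm).mul
    ((ENNReal.measurable_ofReal.comp (hk.meas.comp hWc.measurable)).mul
      (hTT.comp hWc.measurable).inv)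
  set B : (ℝ × En 2) × ℝ → ℝ≥0∞ := fun y => A y.1 * S.indicator 1 (W y.1, y.2) with hB
  have hBm : Measurable B := by
    have e1 : Measurable (fun y : (ℝ × En 2) × ℝ => S.indicator (1 : PS 2 × ℝ → ℝ≥0∞) (W y.1, y.2)) :=
      (measurable_one.indicator hSm).comp
        ((hWc.comp continuous_fst).prodMk continuous_snd).measurable
    exact (hAm.comp measurable_fst).mul e1
  -- the change of variables
  set Θ : PS 2 → PS 2 := fun q => Φ (q.1 1) ((Φ (q.1 0) z).1, q.2) with hΘ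
  have hc0 : ∀ i : Fin 2, Continuous (fun q : PS 2 => q.1 i) := fun i => by fun_prop
  set Y : PS 2 → ℝ × En 2 := fun q => (q.1 0, q.2) with hY
  have hYc : Continuous Y := (hc0 0).prodMk continuous_snd
  set Ω : Set (PS 2) := {q | cT (Y q) ≠ 0 ∧ (W (Y q), q.1 1) ∈ S} with hΩ
  have hΩm : MeasurableSet Ω := by
    have e1 : MeasurableSet {q : PS 2 | cT (Y q) ≠ 0} :=
      (hcTm.comp hYc.measurable) (measurableSet_singleton (0 : ℝ)).compl
    have e2 : MeasurableSet {q : PS 2 | (W (Y q), q.1 1) ∈ S} :=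
      (((hWc.comp hYc).prodMk (hc0 1)).measurable) hSm
    exact e1.inter e2
  have hq : ∀ q : PS 2, ((!₂[q.1 0, q.1 1] : En 2), q.2) = q := by
    intro q
    apply Prod.ext
    · ext i
      fin_cases i <;> rfl
    · rfl
  have hΩp : ∀ q ∈ Ω, Stay Φ R z (q.1 0) ∧ ((Φ (q.1 0) z).1, q.2) ∈ SL 𝒢 e R ∧
      Stay Φ R ((Φ (q.1 0) z).1, q.2) (q.1 1) ∧
      crs (𝒢.G (Φ (q.1 0) z).1 (Φ (q.1 0) z).2) (𝒢.G (Φ (q.1 0) z).1 q.2) ≠ 0 ∧
      cT (Y q) = crs (𝒢.G (Φ (q.1 0) z).1 (Φ (q.1 0) z).2) (𝒢.G (Φ (q.1 0) z).1 q.2) := by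
    intro q hq'
    have e1 := hcTOm _ hq'.1
    have e2 := hcTR _ e1
    refine ⟨e1.1, e1.2, hq'.2, ?_, e2⟩
    have e3 : cR (Y q) ≠ 0 := by
      rw [← e2]
      exact hq'.1
    exact e3
  have hder : ∀ q ∈ Ω, HasFDerivAt Θ (fderiv ℝ Θ q) q ∧ |(fderiv ℝ Θ q).det| = cT (Y q) := by
    intro q hq'
    obtain ⟨e1, e2, e3, e4, e5⟩ := hΩp q hq'
    obtain ⟨D, hD, hdet⟩ := h2 r0 𝒢 L R e r1 H Φ hS z hz (q.1 0) (q.1 1) q.2 e1 e2
    rw [hq q] at hD
    have e6 : fderiv ℝ Θ q = D := hD.fderiv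
    rw [e6, e5]
    exact ⟨hD, hdet⟩
  have hinj : InjOn Θ Ω := by
    intro q hq1 q' hq2 hqq
    obtain ⟨e1, e2, e3, e4, _⟩ := hΩp q hq1
    obtain ⟨f1, f2, f3, f4, _⟩ := hΩp q' hq2
    obtain ⟨g1, g2, g3⟩ := h1 r0 𝒢 L R e r1 H Φ hS z hz (q.1 0) (q'.1 0) (q.1 1) (q'.1 1) q.2 q'.2
      e1 f1 e2 f2 e3 f3 e4 hqq
    rw [← hq q, ← hq q', g1, g2, g3]
  have hsub : Θ '' Ω ⊆ SL 𝒢 e R := by
    rintro _ ⟨q, hq', rfl⟩
    obtain ⟨e1, e2, e3, e4, _⟩ := hΩp q hq'
    exact (h4 2 r0 𝒢 L R e r1 H Φ hS _ e2 _ e3).1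
  set g : PS 2 → ℝ≥0∞ := fun z' =>
    ENNReal.ofReal (k z') * (TT Φ R (fun _ : En 2 => (1 : ℝ)) z')⁻¹ with hg
  have hHaar : (volume : Measure (PS 2)).IsAddHaarMeasure := by
    rw [Measure.volume_eq_prod]
    infer_instance
  have hcv : ∫⁻ z' in Θ '' Ω, g z' = ∫⁻ q in Ω, ENNReal.ofReal |(fderiv ℝ Θ q).det| * g (Θ q) :=
    lintegral_image_eq_lintegral_abs_det_fderiv_mul volume hΩm
      (fun q hq' => (hder q hq').1.hasFDerivWithinAt) hinj g
  have hstep : ∫⁻ q in Ω, ENNReal.ofReal |(fderiv ℝ Θ q).det| * g (Θ q) =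
      ∫⁻ q : PS 2, B (Y q, q.1 1) := by
    rw [← lintegral_indicator hΩm]
    apply lintegral_congr
    intro q
    by_cases hq' : q ∈ Ω
    · rw [indicator_of_mem hq', (hder q hq').2]
      obtain ⟨e1, e2, e3, e4, e5⟩ := hΩp q hq'
      have hinv := h4 2 r0 𝒢 L R e r1 H Φ hS _ e2 _ e3
      have e6 : k (Θ q) = k (W (Y q)) := hk.inv _ e2 _ e3
      have e7 : TT Φ R (fun _ : En 2 => (1 : ℝ)) (Θ q) =
          TT Φ R (fun _ : En 2 => (1 : ℝ)) (W (Y q)) := hinv.2.2.2.1 _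
      have e8 : S.indicator (1 : PS 2 × ℝ → ℝ≥0∞) (W (Y q), q.1 1) = 1 := indicator_of_mem hq'.2 _
      change ENNReal.ofReal (cT (Y q)) * (ENNReal.ofReal (k (Θ q)) *
        (TT Φ R (fun _ : En 2 => (1 : ℝ)) (Θ q))⁻¹) = A (Y q) * S.indicator 1 (W (Y q), q.1 1)
      rw [e6, e7, e8, mul_one]
    · rw [indicator_of_notMem hq']
      change 0 = A (Y q) * S.indicator 1 (W (Y q), q.1 1)
      by_cases hc : cT (Y q) = 0
      · have e1 : A (Y q) = 0 := by
          change ENNReal.ofReal (cT (Y q)) * _ = 0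
          rw [hc, ENNReal.ofReal_zero, zero_mul]
        rw [e1, zero_mul]
      · have e2 : (W (Y q), q.1 1) ∉ S := fun h => hq' ⟨hc, h⟩
        rw [indicator_of_notMem e2, mul_zero]
  have htt : ∀ w : PS 2, ∫⁻ t : ℝ, S.indicator (1 : PS 2 × ℝ → ℝ≥0∞) (w, t) =
      TT Φ R (fun _ : En 2 => (1 : ℝ)) w := by
    intro w
    have e1 : MeasurableSet {u | Stay Φ R w u} :=
      (measurable_prodMk_left (x := w)) hSm
    rw [TT, ← lintegral_indicator e1]
    apply lintegral_congr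
    intro t
    by_cases ht : Stay Φ R w t
    · rw [indicator_of_mem (show (w, t) ∈ S from ht), indicator_of_mem (show t ∈ {u | Stay Φ R w u} from ht)]
      simp
    · rw [indicator_of_notMem (show (w, t) ∉ S from ht), indicator_of_notMem (show t ∉ {u | Stay Φ R w u} from ht)]
  have hton : ∫⁻ q : PS 2, B (Y q, q.1 1) =
      ∫⁻ s : ℝ, ∫⁻ p' : En 2, ENNReal.ofReal (cT (s, p')) * ENNReal.ofReal (k (W (s, p'))) := by
    have hBY : Measurable (fun q : PS 2 => B (Y q, q.1 1)) :=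
      hBm.comp (hYc.prodMk (hc0 1)).measurable
    have e1 : ∫⁻ q : PS 2, B (Y q, q.1 1) = ∫⁻ p' : En 2, ∫⁻ a : En 2, B ((a 0, p'), a 1) := by
      rw [Measure.volume_eq_prod, lintegral_prod_symm _ hBY.aemeasurable]
    have e2 : ∀ p' : En 2, ∫⁻ a : En 2, B ((a 0, p'), a 1) = ∫⁻ s : ℝ, ∫⁻ t : ℝ, B ((s, p'), t) := by
      intro p'
      have e3 : Measurable (fun y : ℝ × ℝ => B ((y.1, p'), y.2)) :=
        hBm.comp ((measurable_fst.prodMk measurable_const).prodMk measurable_snd)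
      exact KC1_pl (fun y : ℝ × ℝ => B ((y.1, p'), y.2)) e3
    rw [e1, lintegral_congr e2]
    have e4 : Measurable (fun y : ℝ × En 2 => ∫⁻ t : ℝ, B (y, t)) := hBm.lintegral_prod_right'
    have e5 : Measurable (Function.uncurry fun (p' : En 2) (s : ℝ) => ∫⁻ t : ℝ, B ((s, p'), t)) :=
      e4.comp measurable_swap
    rw [lintegral_lintegral_swap e5.aemeasurable]
    apply lintegral_congr
    intro s
    apply lintegral_congr
    intro p'
    have e6 : ∫⁻ t : ℝ, B ((s, p'), t) = A (s, p') * TT Φ R (fun _ : En 2 => (1 : ℝ)) (W (s, p')) := by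
      have e7 : Measurable (fun t : ℝ => S.indicator (1 : PS 2 × ℝ → ℝ≥0∞) (W (s, p'), t)) :=
        (measurable_one.indicator hSm).comp measurable_prodMk_left
      have e8 : ∫⁻ t : ℝ, B ((s, p'), t) =
          ∫⁻ t : ℝ, A (s, p') * S.indicator (1 : PS 2 × ℝ → ℝ≥0∞) (W (s, p'), t) := rfl
      rw [e8, lintegral_const_mul _ e7, htt]
    rw [e6]
    change ENNReal.ofReal (cT (s, p')) * (ENNReal.ofReal (k (W (s, p'))) *
      (TT Φ R (fun _ : En 2 => (1 : ℝ)) (W (s, p')))⁻¹) *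
      TT Φ R (fun _ : En 2 => (1 : ℝ)) (W (s, p')) =
      ENNReal.ofReal (cT (s, p')) * ENNReal.ofReal (k (W (s, p')))
    by_cases hy : (s, p') ∈ Om
    · obtain ⟨t1, t2⟩ := hTTfin _ hy.2
      rw [mul_assoc, mul_assoc, ENNReal.inv_mul_cancel t1 t2, mul_one]
    · have e9 : cT (s, p') = 0 := indicator_of_notMem hy _
      rw [e9, ENNReal.ofReal_zero, zero_mul, zero_mul, zero_mul]
  have hleft : ∫⁻ s in {s | Stay Φ R z s}, ∫⁻ p' in Fb 𝒢 e (Φ s z).1,
      ENNReal.ofReal (crs (𝒢.G (Φ s z).1 (Φ s z).2) (𝒢.G (Φ s z).1 p') * k ((Φ s z).1, p')) ≤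
      ∫⁻ s : ℝ, ∫⁻ p' : En 2, ENNReal.ofReal (cT (s, p')) * ENNReal.ofReal (k (W (s, p'))) := by
    have e1 : MeasurableSet {u | Stay Φ R z u} := (measurable_prodMk_left (x := z)) hSm
    refine le_trans (setLIntegral_mono' e1 ?_) (setLIntegral_le_lintegral _ _)
    intro s hs
    have hs' : Stay Φ R z s := hs
    have hlt : ‖(Φ s z).1‖ < R := hs' s right_mem_uIcc
    have e2 : Fb 𝒢 e (Φ s z).1 = {p' | W (s, p') ∈ SL 𝒢 e R} := by
      ext p'
      exact ⟨fun h => ⟨hlt, h.1, h.2⟩, fun h => ⟨h.2.1, h.2.2⟩⟩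
    have e3 : MeasurableSet (Fb 𝒢 e (Φ s z).1) := by
      rw [e2]
      exact (hSLopen.preimage (hWc.comp (continuous_const.prodMk continuous_id))).measurableSet
    refine le_trans (setLIntegral_mono' e3 ?_) (setLIntegral_le_lintegral _ _)
    intro p' hp'
    have e4 : (s, p') ∈ Om := by
      refine ⟨hs', ?_⟩
      rw [e2] at hp'
      exact hp'
    rw [hcTR _ e4, ← ENNReal.ofReal_mul (hcRnn _)]
  have hright : ∫⁻ z' in Θ '' Ω, g z' ≤ mmk 𝒢 Φ e R k := lintegral_mono_set hsub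
  rw [hcv, hstep, hton] at hright
  exact hleft.trans hright

end Pool.Agent.CRO
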