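import Pool.Agent.helper58.CRO.SpecL

/-!
Row `cro:LFI` (MP_5bf3c3_gt, Theorem 6): the volume of the ball.
-/

set_option autoImplicit false
set_option linter.unusedVariables false

open scoped Manifold ContDiff Topology ENNReal
open MeasureTheory Set Bundle Filter

noncomputable section

namespace Pool.Agent.CRO

variable {n : ℕ} {r0 : ℝ}

theorem LFI_q {n : ℕ} {ε l : ℝ} (hε : 0 < ε) (hl : 0 ≤ l) :
    l ^ (n - 1) * (1 / (ε * Df ε l ^ (n - 1))) = (1 - qf n (l / ε)) / ε := by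
  have hD : Df ε l = ε * Real.sqrt (1 + (l / ε) ^ 2) := by
    unfold Df
    have e : ε ^ 2 + l ^ 2 = ε ^ 2 * (1 + (l / ε) ^ 2) := by
      field_simp
    rw [e, Real.sqrt_mul (sq_nonneg ε), Real.sqrt_sq hε.le]
  have hs : 0 < Real.sqrt (1 + (l / ε) ^ 2) := Real.sqrt_pos.2 (by positivity)
  unfold qf
  rw [hD, sub_sub_cancel]
  generalize Real.sqrt (1 + (l / ε) ^ 2) = r at hs ⊢
  rw [div_div, div_pow]
  have h0 : (ε * r) ^ (n - 1) ≠ 0 := by positivity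
  field_simp

theorem LFI_lj (h3 : JVL_stmt) (h4 : JNU_stmt) (𝒢 : NChart n r0) {R : ℝ} (hn : 2 ≤ n) (hR : 0 < R) (hRr : R < r0)
    {N j : ℕ} (hN : 1 ≤ N) (hj : j ∈ Finset.Icc 1 N) :
    0 ≤ lj 𝒢 R N j ∧ R / N * (lj 𝒢 R N j ^ (n - 1)) = vv 𝒢 R N j / (n * kap n) := by
  obtain ⟨⟨c, C, hc, hC, hb⟩, _⟩ := h3 n r0 𝒢 R hn hR hRr
  obtain ⟨_, _, hk, _⟩ := h4 n hn
  have hN0 : (0 : ℝ) < N := by exact_mod_cast hN
  have hn0 : (0 : ℝ) < n := by exact_mod_cast (by omega : 0 < n)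
  have hh : 0 < R / N := by positivity
  have hv : 0 ≤ vv 𝒢 R N j := le_trans (by positivity) (hb N j hN hj).1
  have hq : 0 ≤ vv 𝒢 R N j / (R / N * (n * kap n)) := by positivity
  refine ⟨Real.rpow_nonneg hq _, ?_⟩
  have e : lj 𝒢 R N j ^ (n - 1) = vv 𝒢 R N j / (R / N * (n * kap n)) := by
    unfold lj
    rw [← Real.rpow_natCast, ← Real.rpow_mul hq]
    have e1 : (1 : ℝ) / ((n : ℝ) - 1) * ((n - 1 : ℕ) : ℝ) = 1 := by
      rw [Nat.cast_sub (by omega)]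
      have : (0 : ℝ) < (n : ℝ) - 1 := by
        have : (2 : ℝ) ≤ n := by exact_mod_cast hn
        linarith
      push_cast
      field_simp
    rw [e1, Real.rpow_one]
  rw [e]
  field_simp

/-- the inequality for given `ε`, `N` -/
theorem LFI_one (h1 : LVS_stmt) (h3 : JVL_stmt) (h4 : JNU_stmt) (𝒢 : NChart n r0) {L R C : ℝ} (hn : 2 ≤ n)
    (hE : HasExp 𝒢 L) (hL : HasLen 𝒢 L) (hR : 0 < R) (hRr : R < r0) (hRL : 2 * R < L)
    {N : ℕ} (hN : 1 ≤ N) (hC : ∀ j ∈ Finset.Icc 1 N, vv 𝒢 R N j ≤ C * (R / N)) {ε S : ℝ} (hε : 0 < ε) (hS : 0 < S) :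
    R * ((n : ℝ) / ((n : ℝ) - 1) * (S ^ (n - 1) / Df ε S ^ n)) ≤
      cW n * ∑ j ∈ Finset.Icc 1 N, R / N * (qf n (lj 𝒢 R N j / ε) / ε) +
        cW n * (VV 𝒢 R / (n * kap n) * (1 / Df ε S ^ n)) + cW n * (C * (R / N)) / (n * kap n * ε ^ n) := by
  have h := h1 n r0 𝒢 L R hn hE hL hR hRr hRL N ε S (C * (R / N)) hN hε hS hC
  have hsum := (h3 n r0 𝒢 R hn hR hRr).2 N hN
  have hN0 : (0 : ℝ) < N := by exact_mod_cast hN
  have e : ∑ j ∈ Finset.Icc 1 N, R / N * (lj 𝒢 R N j ^ (n - 1) *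
          (1 / (ε * Df ε (lj 𝒢 R N j) ^ (n - 1)) - 1 / Df ε S ^ n)) =
      R / ε - ∑ j ∈ Finset.Icc 1 N, R / N * (qf n (lj 𝒢 R N j / ε) / ε) -
        VV 𝒢 R / (n * kap n) * (1 / Df ε S ^ n) := by
    have e1 : ∀ j ∈ Finset.Icc 1 N, R / N * (lj 𝒢 R N j ^ (n - 1) *
          (1 / (ε * Df ε (lj 𝒢 R N j) ^ (n - 1)) - 1 / Df ε S ^ n)) =
        R / N / ε - R / N * (qf n (lj 𝒢 R N j / ε) / ε) - vv 𝒢 R N j / (n * kap n) * (1 / Df ε S ^ n) := by
      intro j hj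
      obtain ⟨f1, f2⟩ := LFI_lj h3 h4 𝒢 hn hR hRr hN hj
      rw [← f2, mul_sub, LFI_q hε f1]
      ring
    have e3 : ∑ j ∈ Finset.Icc 1 N, vv 𝒢 R N j / (n * kap n) = VV 𝒢 R / (n * kap n) := by
      rw [← Finset.sum_div, hsum]
    rw [Finset.sum_congr rfl e1, Finset.sum_sub_distrib, Finset.sum_sub_distrib, ← Finset.sum_mul, e3,
      Finset.sum_const, Nat.card_Icc, nsmul_eq_mul]
    congr 2
    rw [Nat.add_sub_cancel]
    field_simp
  rw [e] at h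
  have e2 : R * (cW n / ε - (n : ℝ) / ((n : ℝ) - 1) * (S ^ (n - 1) / Df ε S ^ n)) =
      cW n * (R / ε) - R * ((n : ℝ) / ((n : ℝ) - 1) * (S ^ (n - 1) / Df ε S ^ n)) := by ring
  rw [e2] at h
  linarith

theorem LFI (h1 : LVS_stmt) (h2 : LSM_stmt) (h3 : JVL_stmt) (h4 : JNU_stmt) : LFI_stmt := by
  intro n r0 𝒢 L R hn hE hL hR hRr hRL
  obtain ⟨hX0, hcW, hk, _, hXc, _, _⟩ := h4 n hn
  obtain ⟨⟨c, C, hc, hC, hb⟩, _⟩ := h3 n r0 𝒢 R hn hR hRr
  have hn2 : (2 : ℝ) ≤ n := by exact_mod_cast hn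
  have hn1 : (0 : ℝ) < (n : ℝ) - 1 := by linarith
  have hn0 : (0 : ℝ) < n := by linarith
  have hom : 0 < (n : ℝ) * kap n := by positivity
  set S : ℝ := 2 * R / Real.pi with hS
  have hπ := Real.pi_pos
  have hS0 : 0 < S := by positivity
  set F : ℝ → ℝ := fun ε => R * ((n : ℝ) / ((n : ℝ) - 1) * (S ^ (n - 1) / Df ε S ^ n)) -
    cW n * (VV 𝒢 R / (n * kap n) * (1 / Df ε S ^ n)) with hF
  have hDpos : ∀ ε, 0 < Df ε S := fun ε => Real.sqrt_pos.2 (by positivity)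
  have hFc : Continuous F := by
    have hD : Continuous (fun ε => Df ε S) := by
      unfold Df
      fun_prop
    have hD2 : Continuous (fun ε => Df ε S ^ n) := hD.pow n
    rw [hF]
    refine Continuous.sub ?_ ?_
    · exact continuous_const.mul (continuous_const.mul (continuous_const.div hD2 fun ε => (pow_pos (hDpos ε) n).ne'))
    · exact continuous_const.mul (continuous_const.mul (continuous_const.div hD2 fun ε => (pow_pos (hDpos ε) n).ne'))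
  have hF0 : ∀ η : ℝ, 0 < η → F 0 ≤ cW n * (((n : ℝ) - 1) * X0 n + η) := by
    intro η hη
    obtain ⟨ε0, hε0, hsm⟩ := h2 n r0 𝒢 R hn hR hRr η hη
    have hbd : ∀ ε : ℝ, 0 < ε → ε < ε0 → F ε ≤ cW n * (((n : ℝ) - 1) * X0 n + η) := by
      intro ε hε hεε
      obtain ⟨N0, hN0⟩ := hsm ε hε hεε
      have t : Tendsto (fun N : ℕ => cW n * (((n : ℝ) - 1) * X0 n + η) + (cW n * (C * R) / (n * kap n * ε ^ n)) / (N : ℝ))
          atTop (𝓝 (cW n * (((n : ℝ) - 1) * X0 n + η) + 0)) :=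
        tendsto_const_nhds.add (tendsto_const_div_atTop_nhds_zero_nat _)
      rw [add_zero] at t
      refine ge_of_tendsto t ?_
      filter_upwards [eventually_ge_atTop (max N0 1)] with N hN
      have hN1 : 1 ≤ N := (le_max_right _ _).trans hN
      have hNN : N0 ≤ N := (le_max_left _ _).trans hN
      have g1 := LFI_one h1 h3 h4 𝒢 hn hE hL hR hRr hRL hN1 (fun j hj => (hb N j hN1 hj).2) hε hS0
      have g2 := mul_le_mul_of_nonneg_left (hN0 N hNN) hcW.le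
      have g3 : cW n * (C * (R / N)) / (n * kap n * ε ^ n) = (cW n * (C * R) / (n * kap n * ε ^ n)) / (N : ℝ) := by
        ring
      rw [g3] at g1
      show R * ((n : ℝ) / ((n : ℝ) - 1) * (S ^ (n - 1) / Df ε S ^ n)) -
        cW n * (VV 𝒢 R / (n * kap n) * (1 / Df ε S ^ n)) ≤ _
      linarith
    have t2 : Tendsto F (𝓝[>] 0) (𝓝 (F 0)) := (hFc.tendsto 0).mono_left nhdsWithin_le_nhds
    refine le_of_tendsto t2 ?_
    filter_upwards [Ioo_mem_nhdsGT hε0] with ε hε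
    exact hbd ε hε.1 hε.2
  have hF1 : F 0 ≤ Real.pi / 2 := by
    have e : cW n * (((n : ℝ) - 1) * X0 n) = Real.pi / 2 := by
      have e1 : cW n * (((n : ℝ) - 1) * X0 n) = ((n : ℝ) - 1) * (X0 n * cW n) := by ring
      rw [e1, hXc]
      field_simp
    apply le_of_forall_pos_le_add
    intro δ hδ
    have h5 := hF0 (δ / cW n) (by positivity)
    rw [mul_add, e] at h5
    have e2 : cW n * (δ / cW n) = δ := by field_simp
    rw [e2] at h5
    exact h5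
  have hD0 : Df 0 S = S := by
    unfold Df
    rw [zero_pow two_ne_zero, zero_add, Real.sqrt_sq hS0.le]
  have hF2 : F 0 = (n : ℝ) / ((n : ℝ) - 1) * (Real.pi / 2) - cW n * (VV 𝒢 R / (n * kap n) * (1 / S ^ n)) := by
    rw [hF]
    show R * ((n : ℝ) / ((n : ℝ) - 1) * (S ^ (n - 1) / Df 0 S ^ n)) -
        cW n * (VV 𝒢 R / (n * kap n) * (1 / Df 0 S ^ n)) = _
    rw [hD0]
    have e : S ^ (n - 1) / S ^ n = 1 / S := by
      have e1 : S ^ n = S ^ (n - 1) * S := by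
        rw [← pow_succ]
        congr 1
        omega
      rw [e1]
      field_simp
    rw [e]
    have e2 : R * ((n : ℝ) / ((n : ℝ) - 1) * (1 / S)) = (n : ℝ) / ((n : ℝ) - 1) * (Real.pi / 2) := by
      rw [hS]
      field_simp
    rw [e2]
  rw [hF2] at hF1
  have h6 : X0 n * cW n ≤ cW n * (VV 𝒢 R / (n * kap n) * (1 / S ^ n)) := by
    rw [hXc]
    have e : (n : ℝ) / ((n : ℝ) - 1) * (Real.pi / 2) - Real.pi / 2 = Real.pi / (2 * ((n : ℝ) - 1)) := by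
      field_simp
      ring
    linarith
  have h7 : X0 n ≤ VV 𝒢 R / (n * kap n) * (1 / S ^ n) := by
    have : cW n * X0 n ≤ cW n * (VV 𝒢 R / (n * kap n) * (1 / S ^ n)) := by linarith
    exact le_of_mul_le_mul_left this hcW
  have hSn : 0 < S ^ n := by positivity
  rw [div_mul_div_comm, mul_one, le_div_iff₀ (by positivity)] at h7
  calc X0 n * (n * kap n) * S ^ n = X0 n * (n * kap n * S ^ n) := by ring
    _ ≤ VV 𝒢 R := h7

end Pool.Agent.CRO
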